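import Pool.Agent.R307.Strip2

set_option autoImplicit false

/-!
# MP_9a1873_nt, Q1: maxima of the derivatives of zeta versus maxima of zeta in the critical strip

For every `ℓ` and every `0 < σ < 1` the maxima over `T ≤ t ≤ 2T` satisfy, unconditionally,

`(log T)^(-ℓ/2) M_0(σ, T) ≪ M_ℓ(σ, T) ≪ (log T)^(2ℓ) M_0(σ, T)`.

Upper bound: near a point `σ + i t₀` of the segment put `s = σ + i (t₀ ± w²)`; the function of `w` is
bounded by `M_0` on a real segment around `w = 0`, by a power of `T` on a parallel segment, and the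
three lines theorem with a Gaussian factor bounds `ζ` in the disc of radius `(log T)^(-2)` around
`σ + i t₀`, wherever `t₀` lies in `[T, 2T]`.  Lower bound: at distance `√(log T)` from the end points
the maximum principle bounds `ζ^(ℓ)` to the right of the segment by `M_ℓ`, and integrating `ℓ` times
from the region of absolute convergence bounds `ζ`; near the end points one moves along the segment.
-/

namespace Pool.Agent.Results.MP_9a1873_nt.PolylogComparison

open Complex Set Pool.Agent.R307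

/-- `M ℓ σ T` is the maximum over `T ≤ t ≤ 2T` of the absolute value of the `ℓ`-th derivative of the
Riemann zeta function at `σ + it` (written as a supremum, which is attained, see `M_isGreatest`). -/
noncomputable def M (ℓ : ℕ) (σ T : ℝ) : ℝ :=
  sSup ((fun t : ℝ => ‖iteratedDeriv ℓ riemannZeta (σ + t * I)‖) '' Icc T (2 * T))

lemma pt_eq (σ t : ℝ) : (σ : ℂ) + t * I = ⟨σ, t⟩ := by
  apply Complex.ext <;> simp

lemma M_eq (ℓ : ℕ) (σ T : ℝ) : M ℓ σ T = MM ℓ σ T := by
  unfold M MM zd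
  simp only [pt_eq]

/-- For `T > 0` the supremum is a maximum. -/
theorem M_isGreatest (ℓ : ℕ) (σ T : ℝ) (hT : 0 < T) :
    IsGreatest ((fun t : ℝ => ‖iteratedDeriv ℓ riemannZeta (σ + t * I)‖) '' Icc T (2 * T))
      (M ℓ σ T) := by
  have hc : ContinuousOn (fun t : ℝ => ‖iteratedDeriv ℓ riemannZeta (σ + t * I)‖)
      (Icc T (2 * T)) := by
    intro t ht
    have h1 := (vert_cont ℓ σ (by linarith [ht.1] : (0:ℝ) < t).ne').norm.continuousWithinAt
      (s := Icc T (2 * T))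
    simp only [pt_eq]
    exact h1
  exact (isCompact_Icc.image_of_continuousOn hc).isGreatest_sSup
    ((nonempty_Icc.2 (by linarith)).image _)

/-- **Q1.**  For every `ℓ` and `0 < σ < 1`, both exponents exist: `a = -ℓ/2` and `A = 2ℓ` work. -/
theorem result (ℓ : ℕ) (σ : ℝ) (hσ0 : 0 < σ) (hσ1 : σ < 1) :
    ∃ c C T₀ : ℝ, 0 < c ∧ 0 < C ∧ ∀ T : ℝ, T₀ ≤ T →
      c * Real.log T ^ (-(ℓ : ℝ) / 2) * M 0 σ T ≤ M ℓ σ T ∧
      M ℓ σ T ≤ C * Real.log T ^ (2 * (ℓ : ℝ)) * M 0 σ T := by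
  obtain ⟨C₁, T₁, hC₁, h1⟩ := lower_half ℓ hσ0
  obtain ⟨C₂, T₂, hC₂, h2⟩ := upper_half ℓ hσ0 hσ1
  refine ⟨1 / C₁, C₂, max (max T₁ T₂) 4, by positivity, hC₂, fun T hT => ?_⟩
  have g1 : T₁ ≤ T := ((le_max_left _ _).trans (le_max_left _ _)).trans hT
  have g2 : T₂ ≤ T := ((le_max_right _ _).trans (le_max_left _ _)).trans hT
  have g3 : 4 ≤ T := (le_max_right _ _).trans hT
  have hL : 0 < Real.log T := Real.log_pos (by linarith)
  simp only [M_eq]
  constructor
  · have h3 := h1 T g1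
    have e : √(Real.log T) ^ ℓ = Real.log T ^ ((ℓ : ℝ) / 2) := by
      rw [Real.sqrt_eq_rpow, ← Real.rpow_natCast, ← Real.rpow_mul hL.le]
      congr 1; ring
    have e2 : Real.log T ^ (-(ℓ : ℝ) / 2) = (Real.log T ^ ((ℓ : ℝ) / 2))⁻¹ := by
      rw [neg_div, Real.rpow_neg hL.le]
    rw [e] at h3
    have hp : 0 < Real.log T ^ ((ℓ : ℝ) / 2) := Real.rpow_pos_of_pos hL _
    rw [e2]
    calc 1 / C₁ * (Real.log T ^ ((ℓ : ℝ) / 2))⁻¹ * MM 0 σ T
        ≤ 1 / C₁ * (Real.log T ^ ((ℓ : ℝ) / 2))⁻¹ *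
          (C₁ * Real.log T ^ ((ℓ : ℝ) / 2) * MM ℓ σ T) :=
          mul_le_mul_of_nonneg_left h3 (by positivity)
      _ = MM ℓ σ T := by field_simp
  · have h3 := h2 T g2
    have e : Real.log T ^ (2 * (ℓ : ℝ)) = Real.log T ^ (2 * ℓ) := by
      rw [← Real.rpow_natCast]; push_cast; rfl
    rw [e]
    exact h3

end Pool.Agent.Results.MP_9a1873_nt.PolylogComparison
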